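import Pool.Agent.H920R2.Cw8
import Pool.Agent.H920R2.Gl4

/-!
MP_4d1008_ag: every integral scheme of finite type over `ℤ` birational to the quotient of a product
of curves over a finite field of characteristic `p` by an automorphism of order `p` which preserves
the factors has a regular model proper over `ℤ`.
-/

set_option autoImplicit false

open AlgebraicGeometry CategoryTheory TensorProduct Pool.Agent.H920R2

namespace Pool.Agent.Results.MP_4d1008_ag.CurveProductQuotients

/-- The linear map from the tensor product of the `K i` to `L` which maps `⨂ x i` to the product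
of the `e i (x i)`. -/
noncomputable def mulMap {k L : Type} [Field k] [Field L] [Algebra k L] {n : ℕ}
    {K : Fin n → Type} [∀ i, Field (K i)] [∀ i, Algebra k (K i)] (e : ∀ i, K i →ₐ[k] L) :
    (⨂[k] i, K i) →ₗ[k] L :=
  PiTensorProduct.lift ((MultilinearMap.mkPiAlgebra k (Fin n) L).compLinearMap
    fun i => (e i).toLinearMap)

/-- Let `k` be a finite field of characteristic `p`, `K i` the function fields of `n` curves over
`k`, and `L` a field extension of `k` generated by linearly disjoint copies `e i (K i)` of the
`K i`, i.e. the function field of the product of the curves. Let `τ` be an automorphism of `L` over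
`k` of order `p` which maps every `e i (K i)` into itself. Then every integral scheme `Y` of finite
type over `ℤ` whose function field is isomorphic to the field of invariants of `τ` has a regular
model proper over `ℤ`. -/
theorem result (p : ℕ) [Fact p.Prime] (k : Type) [Field k] [Finite k] [CharP k p]
    (n : ℕ) (K : Fin n → Type) [∀ i, Field (K i)] [∀ i, Algebra k (K i)]
    (hfg : ∀ i, Algebra.EssFiniteType k (K i)) (htr : ∀ i, Algebra.trdeg k (K i) = 1)
    (L : Type) [Field L] [Algebra k L] (e : ∀ i, K i →ₐ[k] L)
    (hdisj : Function.Injective (mulMap e)) (hgen : ⨆ i, (e i).fieldRange = ⊤)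
    (τ : L ≃ₐ[k] L) (hτ : orderOf τ = p) (hst : ∀ i x, τ (e i x) ∈ (e i).fieldRange)
    (Y : Scheme.{0}) (_ : IsIntegral Y) (s : Y ⟶ Spec (CommRingCat.of ℤ))
    (_ : LocallyOfFiniteType s) (_ : QuasiCompact s)
    (_ : Nonempty (Y.functionField ≃+* IntermediateField.fixedField (Subgroup.zpowers τ))) :
    ∃ (X' : Scheme.{0}) (_ : IsIntegral X') (g : X' ⟶ Spec (CommRingCat.of ℤ)),
      IsProper g ∧
      (∀ x : X',
        (((Module.finrank (IsLocalRing.ResidueField (X'.presheaf.stalk x))
            (IsLocalRing.CotangentSpace (X'.presheaf.stalk x)) : ℕ∞)) : WithBot ℕ∞)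
          = ringKrullDim (X'.presheaf.stalk x)) ∧
      Nonempty (X'.functionField ≃+* Y.functionField) := by
  classical
  have hp : p.Prime := Fact.out
  have hpk : (p : k) = 0 := CharP.cast_eq_zero k p
  have hit : ∀ (n : ℕ) x, (τ ^ n) x = τ^[n] x := by
    intro n
    induction n with
    | zero => intro x; rfl
    | succ n ih => intro x; rw [pow_succ, Function.iterate_succ_apply, ← ih]; rfl
  have hτp : ∀ x, τ^[p] x = x := by
    intro x
    rw [← hit, ← hτ, pow_orderOf_eq_one]
    rfl
  have hex : ∃ x, τ x ≠ x := by
    by_contra hcon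
    push Not at hcon
    have h1 : τ = 1 := AlgEquiv.ext hcon
    rw [h1, orderOf_one] at hτ
    exact hp.one_lt.ne hτ
  obtain ⟨W, hW, I, hI, z', J, hM⟩ := curves_model' e hp hpk hfg htr hdisj hgen τ hτp hex
    (fun i x => by
      obtain ⟨y, hy⟩ := hst i x
      exact ⟨y, hy.symm⟩)
  obtain ⟨X', hX', g, h1, h2, ⟨h3⟩⟩ := exists_regular_model (fixF τ) hM hW
  obtain ⟨ε⟩ := ‹Nonempty (Y.functionField ≃+* IntermediateField.fixedField (Subgroup.zpowers τ))›
  have hfix : fixF τ = IntermediateField.fixedField (Subgroup.zpowers τ) := by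
    ext x
    rw [mem_fixF, IntermediateField.mem_fixedField_iff]
    constructor
    · rintro hx _ ⟨m, rfl⟩
      have h2 : τ ∈ MulAction.stabilizer (L ≃ₐ[k] L) x := hx
      exact (MulAction.stabilizer (L ≃ₐ[k] L) x).zpow_mem h2 m
    · intro hx
      exact hx τ (Subgroup.mem_zpowers τ)
  rw [← hfix] at ε
  exact ⟨X', hX', g, h1, h2, ⟨h3.trans ε.symm⟩⟩

end Pool.Agent.Results.MP_4d1008_ag.CurveProductQuotients
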