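import Pool.Agent.H519R3.RS.Glob

/-!
MP_4d1008_ag: regular models, proper over `ℤ`, of the schemes birational to the iterated quotients
of (possibly singular) proper varieties over finite fields of characteristic `p` by automorphisms of
order `p` and `p`-closed vector fields whose leading forms have no zeros outside the vertex of a
smooth weighted blowup.
-/

set_option autoImplicit false

open AlgebraicGeometry CategoryTheory Pool.Agent.H920R2 Pool.Agent.H519R3.RS

namespace Pool.Agent.Results.MP_4d1008_ag.TowerQuotients

/-- Let `k` be a finite field of characteristic `p`, `X` a proper integral scheme over `k` with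
function field `L` and `F` a filtration of its structure sheaf by sheaves of ideals, given by
finitely many affine charts `Spec (B a)` (`Charts`). Suppose that, for every chart `a`, `F a` is
multiplicative with `F a 0 = B a` and `F a 1 ≠ 0` and

* either the weighted blowup of `F a` is smooth (`Good`): the extended Rees algebra of `F a` is of
  finite type and its localizations at the nonzero elements `b T ^ d`, `d > 0`, are smooth over `k`
  (here `B a` may be singular),
* or `B a` is smooth and `F a` is a regular weighted centre.

Let `M` be a field between `k` and `L` which contains the `h a`, such that, for every `a`, there is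
a chain `B a = C a 0 ⊇ C a 1 ⊇ ... ⊇ C a n = B a ∩ M` of subalgebras such that, for every `i`,

* either `C a (i + 1)` is the ring of constants of a `p`-closed derivation `D` of `C a i`
  (`DStep`), which raises the weights of the induced filtration by some `l ≥ 0`, whose zeros
  lie in the centre and whose leading form has no zeros outside the vertex,
* or `C a (i + 1)` is the ring of invariants of an automorphism `σ` of `C a i` with `σ ^ p = 1`
  (`SStep`), such that `σ - 1` raises the weights by some `l > 0`, the fixed points of `σ` lie in
  the centre and the leading form of `σ - 1` has no zeros outside the vertex.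

Then every integral scheme `Y` of finite type over `ℤ` whose function field is isomorphic to `M`
has a regular model proper over `ℤ`. -/
theorem result (p : ℕ) [Fact p.Prime] (k : Type) [Field k] [Finite k] [CharP k p]
    (L : Type) [Field L] [Algebra k L] (𝒜 : Type) [Finite 𝒜] (B : 𝒜 → Subalgebra k L)
    (h : 𝒜 → L) (F : ∀ a, ℕ → Ideal (B a)) (hX : Charts B h F) (hF : ∀ a, IsFilt (F a))
    (hne : ∀ a, F a 1 ≠ ⊥)
    (hG : ∀ a, Good k (hF a) ∨ (Algebra.Smooth k (B a) ∧ RegularWeightedCentre k (F a)))
    (M : IntermediateField k L) (hM : ∀ a, h a ∈ M)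
    (n : ℕ) (C : ∀ a, ℕ → Subalgebra k (B a)) (hC0 : ∀ a, C a 0 = ⊤)
    (hC : ∀ a, ∀ i < n, DStep p (F a) (C a i) (C a (i + 1)) ∨
      SStep p (F a) (C a i) (C a (i + 1)))
    (hCn : ∀ a (x : B a), x ∈ C a n ↔ (x : L) ∈ M)
    (Y : Scheme.{0}) (_ : IsIntegral Y) (s : Y ⟶ Spec (CommRingCat.of ℤ))
    (_ : LocallyOfFiniteType s) (_ : QuasiCompact s)
    (_ : Nonempty (Y.functionField ≃+* M)) :
    ∃ (X' : Scheme.{0}) (_ : IsIntegral X') (g : X' ⟶ Spec (CommRingCat.of ℤ)),
      IsProper g ∧
      (∀ x : X',
        (((Module.finrank (IsLocalRing.ResidueField (X'.presheaf.stalk x))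
            (IsLocalRing.CotangentSpace (X'.presheaf.stalk x)) : ℕ∞)) : WithBot ℕ∞)
          = ringKrullDim (X'.presheaf.stalk x)) ∧
      Nonempty (X'.functionField ≃+* Y.functionField) := by
  have hp : p.Prime := Fact.out
  have hpk : (p : k) = 0 := CharP.cast_eq_zero k p
  have hG' : ∀ a, Good k (hF a) := by
    intro a
    rcases hG a with h | ⟨h1, h2⟩
    · exact h
    · exact good_of_centre (hF a) h2
  obtain ⟨W, hW, I, hI, z, J, hmod⟩ :=
    model_of_charts hp hpk hX hF hne hG' M hM n C hC0 hC hCn
  obtain ⟨X', hX', g, h1, h2, ⟨h3⟩⟩ := exists_regular_model M hmod hW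
  obtain ⟨ε⟩ := ‹Nonempty (Y.functionField ≃+* M)›
  exact ⟨X', hX', g, h1, h2, ⟨h3.trans ε.symm⟩⟩

end Pool.Agent.Results.MP_4d1008_ag.TowerQuotients
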